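import Pool.Agent.Lib.Pc0b458t.Conv

/-!
# MP_c0b458_ag: the defect involution of the cycle rings

`Cycles`, `LefTheory`, `ProdTheory`, `HomTheory` and `Commutants` (file
`Pool.Agent.Lib.Pc0b458t.Defs`) list standard, known properties of numerical cycle classes on
polarised abelian varieties over an algebraic closure of a finite field and of the operators
given by Lefschetz correspondences.  The real cycle classes, the real Lefschetz form `formR`,
`IsDefect` and the other notions used below are defined in `Pool.Agent.Lib.Pc0b458t.DefsReal`.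
-/

universe u

namespace Pool.Agent.Results.MP_c0b458_ag.DefectInvolution

open Pc0b458t

theorem result {T : Cycles.{u}} {K : LefTheory T} {P : ProdTheory K} (H : HomTheory P)
    (hC : Commutants P) :
    ∃ τ : AutsR T, UniqueDefect K τ ∧ Graded τ ∧ FixDivisors τ ∧ Natural K τ ∧ Detects τ ∧
      ∀ A, Generated H A → Q1 T A := by
  refine ⟨fun A => Pc0b458i.sgnAut (T := H.toI hC) A, fun A t => ⟨fun h => ?_, ?_⟩,
    fun A n x hx => Pc0b458i.sgn_cod (T := H.toI hC) A n hx,
    fun A D hD => Pc0b458i.sgn_div (T := H.toI hC) A hD,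
    fun A B u hu x => Pc0b458i.sgn_nat (T := H.toI hC) ⟨u, hu⟩ x,
    fun A => Pc0b458i.hscall_iff (T := H.toI hC) A, fun A h =>
      Pc0b458i.hsc_of_generated (T := H.toI hC) A h⟩
  · exact LinearMap.ext fun x => Pc0b458i.sgn_unique (T := H.toI hC) A t h.1
      (fun u x => h.2.1 u.1 u.2 x) h.2.2 x
  · rintro rfl
    exact ⟨(Pc0b458i.isSign_sgn (T := H.toI hC) A).invol,
      fun u hu x => Pc0b458i.sgn_nat (T := H.toI hC) ⟨u, hu⟩ x,
      (Pc0b458i.isSign_sgn (T := H.toI hC) A).pos⟩

end Pool.Agent.Results.MP_c0b458_ag.DefectInvolution
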